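import Pool.Agent.K3h61.LW.Main

/-!
# MP_efea25_an, Q1: Littlewood polynomials with a zero of order more than `c log n` at `1`

Q1 asks whether the order of the zero at `1` of a Littlewood polynomial of degree `n` is at most
`c log n`. The answer is no.

Proof idea. Let `G₁` be a polynomial with coefficients in `{-1, 0, 1}`, of degree less than `m ^ 3`, with a
zero of order `m` at `1` (pigeonhole), `γ` the greatest common divisor of all `G₁ (z ^ h)`, `h ≥ 1`; the
zeros of `γ` are roots of unity, of order dividing some `L`. Put `N = L 2 ^ (16 a t)`, `m = 2 ^ a`,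
`M = m t` with `t` large. The number of sign vectors of length `N` with `M` vanishing binomial moments
is a Fourier sum over polynomials `P` of degree less than `M` of the products `∏ 2 cos (π P(j))`, `j < N`.
If `P` is often far from the integers the product is tiny. Otherwise the polynomials `G₁ (z ^ h) ^ t`
(small norm, many dilations `h`) force the nearest integers to `P(j)` to agree, up to an error less than
`1/2`, with one integer sequence `R` killed by `γ (E) ^ t`; such a sequence has an even sum over
`[0, N)`, and so the product is not negative. The frequency `0` gives `1`, so the sum is positive.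
-/

set_option autoImplicit false
open Filter Polynomial

namespace Pool.Agent.Results.MP_efea25_an.HighOrderZeros

/-- Littlewood polynomials of degree `n`: all coefficients `a_0, ..., a_n` are `1` or `-1`. -/
def IsLittlewood (n : ℕ) (p : ℝ[X]) : Prop :=
  p.natDegree = n ∧ ∀ j ≤ n, p.coeff j = 1 ∨ p.coeff j = -1

/-- Q1 is false: there is no constant `c` such that every Littlewood polynomial of degree `n ≥ 2` has a
zero of multiplicity at most `c log n` at `1`. In fact, for every real `c` there are infinitely many `n`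
such that some Littlewood polynomial of degree `n` has a zero of multiplicity more than `c log n`
at `1`. -/
theorem result :
    (¬ ∃ c : ℝ, 0 < c ∧ ∀ n : ℕ, 2 ≤ n → ∀ p : ℝ[X], IsLittlewood n p →
      (p.rootMultiplicity 1 : ℝ) ≤ c * Real.log n) ∧
    ∀ c : ℝ, ∃ᶠ n : ℕ in atTop, ∃ p : ℝ[X], IsLittlewood n p ∧
      c * Real.log n < (p.rootMultiplicity 1 : ℝ) := by
  have key : ∀ c : ℝ, ∃ᶠ n : ℕ in atTop, ∃ p : ℝ[X], IsLittlewood n p ∧
      c * Real.log n < (p.rootMultiplicity 1 : ℝ) := by
    intro c
    -- the choice of `a`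
    obtain ⟨a, ha4, ha⟩ : ∃ a : ℕ, 4 ≤ a ∧ |c| * (16 * a) + 1 ≤ (2 : ℝ) ^ a := by
      have h1 := tendsto_pow_const_div_const_pow_of_one_lt 1 (r := (2 : ℝ)) (by norm_num)
      have h2 := h1.eventually (gt_mem_nhds (show (0 : ℝ) < 1 / (16 * |c| + 1) by positivity))
      obtain ⟨a, ha, ha4⟩ := (h2.and (eventually_ge_atTop 4)).exists
      refine ⟨a, ha4, ?_⟩
      rw [div_lt_div_iff₀ (by positivity) (by positivity), one_mul, pow_one] at ha
      have h3 : (1 : ℝ) ≤ a := by exact_mod_cast (show 1 ≤ a by omega)
      nlinarith [abs_nonneg c]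
    obtain ⟨L, hL, hev⟩ := K3h61.LW.exists_eps a ha4
    rw [frequently_atTop]
    intro n₀
    obtain ⟨T, hT⟩ := exists_nat_gt (|c| * L)
    obtain ⟨t, ⟨ε, hε1, hε2⟩, ht0, htT, ht1⟩ := (hev.and ((eventually_ge_atTop (n₀ + 1)).and
      ((eventually_ge_atTop T).and (eventually_ge_atTop 1)))).exists
    set N := L * 2 ^ (16 * a * t) with hN
    have hNt : t < N := by
      calc t < 2 ^ t := Nat.lt_two_pow_self
        _ ≤ 2 ^ (16 * a * t) := by
            apply Nat.pow_le_pow_right (by norm_num)
            nlinarith
        _ ≤ N := Nat.le_mul_of_pos_left _ hL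
    set p : ℝ[X] := ∑ j ∈ Finset.range N, C ((ε j : ℤ) : ℝ) * X ^ j with hp
    have hcoeff : ∀ i, p.coeff i = if i < N then ((ε i : ℤ) : ℝ) else 0 := fun i =>
      K3h61.LW.coeff_sum_range N i (fun j => ((ε j : ℤ) : ℝ))
    have hne : ∀ i, i < N → p.coeff i = 1 ∨ p.coeff i = -1 := by
      intro i hi
      rw [hcoeff, if_pos hi]
      rcases hε1 i with h | h <;> rw [h] <;> simp
    have hp0 : p ≠ 0 := by
      intro h
      have := hne 0 (by omega)
      rw [h] at this
      simp at this
    have hdeg : p.natDegree = N - 1 := by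
      apply natDegree_eq_of_le_of_coeff_ne_zero
      · rw [natDegree_le_iff_coeff_eq_zero]
        intro i hi
        rw [hcoeff, if_neg (by omega)]
      · have := hne (N - 1) (by omega)
        intro h
        rw [h] at this
        norm_num at this
    have hdvd : (X - 1 : ℝ[X]) ^ (2 ^ a * t) ∣ p := by
      apply K3h61.LW.dvd_of_moments
      intro k hk
      rw [hp, K3h61.LW.hasse_sum]
      have := hε2 k hk
      have h2 : ((∑ j ∈ Finset.range N, ε j * (j.choose k : ℤ) : ℤ) : ℝ) = 0 := by
        rw [this]; simp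
      push_cast at h2
      exact h2
    have hmult : 2 ^ a * t ≤ p.rootMultiplicity 1 := by
      rw [le_rootMultiplicity_iff hp0]
      rwa [C_1]
    refine ⟨N - 1, by omega, p, ⟨hdeg, fun j hj => hne j (by omega)⟩, ?_⟩
    have hlog : Real.log ((N - 1 : ℕ) : ℝ) ≤ L + 16 * a * t := by
      have h1 : Real.log ((N - 1 : ℕ) : ℝ) ≤ Real.log N := by
        apply Real.log_le_log
        · exact_mod_cast (show 0 < N - 1 by omega)
        · exact_mod_cast Nat.sub_le _ _
      refine h1.trans ?_
      rw [hN]
      push_cast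
      rw [Real.log_mul (by exact_mod_cast hL.ne') (by positivity), Real.log_pow]
      have e4 : Real.log L ≤ L := (Real.log_le_sub_one_of_pos (by exact_mod_cast hL)).trans
        (by linarith)
      have e5 : Real.log 2 ≤ 1 := by
        have := Real.log_two_lt_d9
        linarith
      have e6 : ((16 * a * t : ℕ) : ℝ) * Real.log 2 ≤ ((16 * a * t : ℕ) : ℝ) * 1 :=
        mul_le_mul_of_nonneg_left e5 (by positivity)
      push_cast at e6 ⊢
      linarith
    have hlog0 : 0 ≤ Real.log ((N - 1 : ℕ) : ℝ) := by
      apply Real.log_nonneg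
      exact_mod_cast (show 1 ≤ N - 1 by omega)
    have htT' : (T : ℝ) ≤ t := by exact_mod_cast htT
    have ht1' : (1 : ℝ) ≤ t := by exact_mod_cast ht1
    calc c * Real.log ((N - 1 : ℕ) : ℝ) ≤ |c| * Real.log ((N - 1 : ℕ) : ℝ) :=
          mul_le_mul_of_nonneg_right (le_abs_self c) hlog0
      _ ≤ |c| * (L + 16 * a * t) := mul_le_mul_of_nonneg_left hlog (abs_nonneg c)
      _ = |c| * L + |c| * (16 * a) * t := by ring
      _ < t + |c| * (16 * a) * t := by linarith
      _ = (|c| * (16 * a) + 1) * t := by ring
      _ ≤ 2 ^ a * t := mul_le_mul_of_nonneg_right ha (by positivity)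
      _ ≤ (p.rootMultiplicity 1 : ℝ) := by exact_mod_cast hmult
  refine ⟨?_, key⟩
  rintro ⟨c, -, hc⟩
  obtain ⟨n, ⟨p, hp, hlt⟩, hn⟩ := ((key c).and_eventually (eventually_ge_atTop 2)).exists
  have h1 := hc n hn p hp
  linarith

end Pool.Agent.Results.MP_efea25_an.HighOrderZeros
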